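import Pool.Agent.H.MP_04ddd8_lc.A

namespace Pool.Agent.Results.MP_04ddd8_lc.Counter

open Set Cardinal

theorem result : ∃ (N : Set (Set (Icc (0 : ℝ) 1))) (X : Set (Icc (0 : ℝ) 1)),
    (∀ A : Set (Icc (0 : ℝ) 1), A.OrdConnected → A ∈ N) ∧
    (∀ A ∈ N, Aᶜ ∈ N) ∧
    (∀ A : ℕ → Set (Icc (0 : ℝ) 1), (∀ n, A n ∈ N) → (⋃ n, A n) ∈ N) ∧
    (∀ P : Set (Set (Icc (0 : ℝ) 1)), Setoid.IsPartition P → (∀ p ∈ P, p.Nontrivial) →
      ∃ S ∈ N, ∀ p ∈ P, ∃ x, S ∩ p = {x}) ∧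
    X ∉ N := by
  have hI : #(Icc (0 : ℝ) 1) = 𝔠 := mk_Icc_real zero_lt_one
  obtain ⟨K, h0, h1, h2, h3, h4⟩ := Pool.Agent.H.MP_04ddd8_lc.ideal (Icc (0 : ℝ) 1)
    (hI ▸ aleph0_lt_continuum)
  obtain ⟨X, hX⟩ := h4 {B | MeasurableSet B} (by
    have e : (inferInstance : MeasurableSpace (Icc (0 : ℝ) 1)) =
        MeasurableSpace.generateFrom (range Iio) :=
      BorelSpace.measurable_eq.trans (borel_eq_generateFrom_Iio _)
    have := MeasurableSpace.cardinal_measurableSet_le_continuum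
      (s := range (Iio : Icc (0 : ℝ) 1 → Set (Icc (0 : ℝ) 1))) (mk_range_le.trans hI.le)
    rw [← e] at this
    exact this.trans hI.ge)
  refine ⟨{A | ∃ B, MeasurableSet B ∧ K (symmDiff A B)}, X, fun A hA => ⟨A, hA.measurableSet, ?_⟩,
    ?_, ?_, ?_, fun ⟨B, hB, h⟩ => hX B hB h⟩
  · simpa using h0
  · rintro A ⟨B, hB, h⟩
    refine ⟨Bᶜ, hB.compl, ?_⟩
    rwa [compl_symmDiff_compl]
  · intro A hA
    choose B hB h using hA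
    refine ⟨⋃ n, B n, MeasurableSet.iUnion hB, h1 _ _ (h2 _ h) ?_⟩
    intro x hx
    simp only [mem_symmDiff, mem_iUnion, not_exists] at hx ⊢
    rcases hx with ⟨⟨n, hn⟩, h'⟩ | ⟨⟨n, hn⟩, h'⟩
    · exact ⟨n, Or.inl ⟨hn, h' n⟩⟩
    · exact ⟨n, Or.inr ⟨hn, h' n⟩⟩
  · intro P hP hP'
    obtain ⟨S, hS, h⟩ := h3 P hP hP'
    exact ⟨S, ⟨∅, MeasurableSet.empty, h1 _ _ hS fun x hx => by
      rcases hx with h | h
      · exact h.1
      · exact absurd h.1 (notMem_empty x)⟩, h⟩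

end Pool.Agent.Results.MP_04ddd8_lc.Counter
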